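import Mathlib

set_option autoImplicit false

namespace Pool.Agent.helper92.Mertens

open Finset Nat Real Chebyshev

/-- Telescoping bound for the prime-square type series. -/
lemma sum_log_div_mul_pred (N : ℕ) (hN : 1 ≤ N) :
    ∑ n ∈ Finset.Icc 2 N, Real.log n / (n * (n - 1)) ≤ 2 - (Real.log N + 2) / N := by
  induction N, hN using Nat.le_induction with
  | base => simp
  | succ N hN ih =>
    rw [← Finset.insert_Icc_right_eq_Icc_add_one (by omega : 2 ≤ N + 1), Finset.sum_insert (by simp)]
    have hNr : (1 : ℝ) ≤ N := by exact_mod_cast hN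
    have hlog : Real.log (N + 1) - Real.log N ≤ 1 / N := by
      rw [← Real.log_div (by positivity) (by positivity)]
      have := Real.log_le_sub_one_of_pos (x := ((N : ℝ) + 1) / N) (by positivity)
      calc _ ≤ ((N : ℝ) + 1) / N - 1 := this
        _ = 1 / N := by field_simp; ring
    have key : Real.log ((N : ℝ) + 1) / ((N + 1) * ((N + 1) - 1)) ≤
        (Real.log N + 2) / N - (Real.log (N + 1) + 2) / (N + 1) := by
      have e1 : (Real.log N + 2) / N - (Real.log ((N : ℝ) + 1) + 2) / (N + 1)
        = (2 + Real.log (N + 1) - (N + 1) * (Real.log (N + 1) - Real.log N)) / ((N + 1) * N) := by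
        field_simp; ring
      rw [e1, show ((N : ℝ) + 1) - 1 = N by ring]
      gcongr
      have : ((N : ℝ) + 1) * (Real.log (N + 1) - Real.log N) ≤ (N + 1) * (1 / N) := by gcongr
      have h2 : ((N : ℝ) + 1) * (1 / N) ≤ 2 := by
        rw [mul_one_div, div_le_iff₀ (by positivity)]; linarith
      linarith
    push_cast
    linarith

lemma sum_primes_log_div_mul_pred (N : ℕ) :
    ∑ p ∈ Nat.primesLE N, Real.log p / (p * (p - 1)) ≤ 2 := by
  rcases Nat.eq_zero_or_pos N with rfl | hN
  · simp
  have h1 : ∑ p ∈ Nat.primesLE N, Real.log p / (p * (p - 1)) ≤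
      ∑ n ∈ Finset.Icc 2 N, Real.log n / (n * (n - 1)) := by
    apply Finset.sum_le_sum_of_subset_of_nonneg
    · intro p hp
      have := Nat.mem_primesLE.mp hp
      simp only [Finset.mem_Icc]
      exact ⟨this.2.two_le, this.1⟩
    · intro n hn _
      simp only [Finset.mem_Icc] at hn
      have : (2 : ℝ) ≤ n := by exact_mod_cast hn.1
      have h3 : 0 ≤ Real.log n := Real.log_nonneg (by linarith)
      apply div_nonneg h3
      apply mul_nonneg <;> linarith
  have h2 := sum_log_div_mul_pred N hN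
  have h3 : 0 ≤ (Real.log N + 2) / N := by positivity
  linarith

lemma log_factorial_ge (N : ℕ) : N * Real.log N - N ≤ Real.log (N ! : ℕ) := by
  rcases Nat.eq_zero_or_pos N with rfl | hN
  · simp
  have h := Real.pow_div_factorial_le_exp (x := (N : ℝ)) (by positivity) N
  have h1 : 0 < (N : ℝ) := by exact_mod_cast hN
  have h2 : (0 : ℝ) < (N ! : ℕ) := by exact_mod_cast Nat.factorial_pos N
  have h3 := Real.log_le_log (by positivity) h
  rw [Real.log_exp, Real.log_div (by positivity) (by positivity), Real.log_pow] at h3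
  linarith

lemma sum_primes_log_div_pred (N : ℕ) (hN : 1 ≤ N) :
    Real.log N - 1 ≤ ∑ p ∈ Nat.primesLE N, Real.log p / (p - 1) := by
  have hNr : (0 : ℝ) < N := by exact_mod_cast hN
  have h1 : Real.log (N ! : ℕ) = ∑ p ∈ Nat.primesLE N, ((N !).factorization p : ℝ) * Real.log p := by
    conv_lhs => rw [← Nat.prod_factorization_pow_eq_self (Nat.factorial_ne_zero N)]
    rw [Finsupp.prod, Nat.cast_prod, Real.log_prod]
    · rw [Nat.support_factorization]
      have : (N !).primeFactors = Nat.primesLE N := by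
        ext p
        simp only [Nat.mem_primeFactors, Nat.mem_primesLE]
        constructor
        · rintro ⟨hp, hd, -⟩
          exact ⟨(hp.dvd_factorial).mp hd, hp⟩
        · rintro ⟨hl, hp⟩
          exact ⟨hp, (hp.dvd_factorial).mpr hl, Nat.factorial_ne_zero N⟩
      rw [this]
      apply Finset.sum_congr rfl
      intro p hp
      push_cast
      rw [Real.log_pow]
    · intro p hp
      rw [Nat.support_factorization] at hp
      have := Nat.pos_of_mem_primeFactors hp
      positivity
  have h2 : Real.log (N ! : ℕ) ≤ N * ∑ p ∈ Nat.primesLE N, Real.log p / (p - 1) := by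
    rw [h1, Finset.mul_sum]
    apply Finset.sum_le_sum
    intro p hp
    have hp' := Nat.mem_primesLE.mp hp
    have hp2 : (2 : ℝ) ≤ p := by exact_mod_cast hp'.2.two_le
    have h3 := Nat.factorization_factorial_le_div_pred hp'.2 N
    have h4 : (((N !).factorization p : ℕ) : ℝ) ≤ N / ((p : ℝ) - 1) := by
      calc (((N !).factorization p : ℕ) : ℝ) ≤ ((N / (p - 1) : ℕ) : ℝ) := by exact_mod_cast h3
        _ ≤ (N : ℝ) / ((p - 1 : ℕ) : ℝ) := Nat.cast_div_le
        _ = N / ((p : ℝ) - 1) := by
          rw [Nat.cast_sub (by have := hp'.2.two_le; omega)]; simp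
    have h5 : 0 ≤ Real.log p := Real.log_nonneg (by linarith)
    calc _ ≤ N / ((p : ℝ) - 1) * Real.log p := by gcongr
      _ = _ := by ring
  have h3 := log_factorial_ge N
  have h4 : N * (Real.log N - 1) ≤ N * ∑ p ∈ Nat.primesLE N, Real.log p / (p - 1) := by linarith
  exact le_of_mul_le_mul_left h4 hNr

/-- The weighted sum `W(n) = ∑_{p ≤ n} log p * log (n / p)`. -/
noncomputable def W (n : ℕ) : ℝ := ∑ p ∈ Nat.primesLE n, Real.log p * (Real.log n - Real.log p)

lemma W_nonneg (n : ℕ) : 0 ≤ W n := by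
  unfold W
  apply Finset.sum_nonneg
  intro p hp
  have hp' := Nat.mem_primesLE.mp hp
  have hp2 : (2 : ℝ) ≤ p := by exact_mod_cast hp'.2.two_le
  have h1 : 0 ≤ Real.log p := Real.log_nonneg (by linarith)
  have h2 : Real.log p ≤ Real.log n := by
    apply Real.log_le_log (by linarith)
    exact_mod_cast hp'.1
  apply mul_nonneg h1; linarith

noncomputable def F (N : ℕ) : ℝ :=
  ∑ p ∈ Nat.primesLE N, Real.log p * (1 / p - (1 + (Real.log N - Real.log p)) / N)

lemma F_eq (N : ℕ) : F N = (∑ p ∈ Nat.primesLE N, Real.log p / p) - (θ N + W N) / N := by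
  unfold F W
  rw [Chebyshev.theta_eq_sum_primesLE_log, ← Finset.sum_add_distrib, Finset.sum_div, ← Finset.sum_sub_distrib]
  apply Finset.sum_congr rfl
  intro p hp
  ring

lemma F_step (N : ℕ) (hN : 1 ≤ N) :
    F (N + 1) ≤ F N + W N * (1 / N - 1 / (N + 1)) + Real.log 4 * (1 / N - 1 / (N + 1)) := by
  have hNr : (1 : ℝ) ≤ N := by exact_mod_cast hN
  have h1 : F (N + 1) = ∑ p ∈ Nat.primesLE N, Real.log p * (1 / p - (1 + (Real.log (N + 1) - Real.log p)) / (N + 1)) := by
    unfold F
    rw [Nat.primesLE_succ]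
    split_ifs with hp
    · rw [Finset.sum_insert (Nat.notMem_primesLE N)]
      push_cast
      simp
    · push_cast
      rfl
  rw [h1]
  unfold F
  have h2 : Real.log 4 * (1 / N - 1 / (N + 1)) ≥
      ∑ p ∈ Nat.primesLE N, Real.log p * ((1 / N - 1 / (N + 1)) / (N + 1) * 1) := by
    rw [← Finset.sum_mul, ← Chebyshev.theta_eq_sum_primesLE_log]
    have h3 := Chebyshev.theta_le_log4_mul_x (x := (N : ℝ)) (by positivity)
    have h4 : (0:ℝ) ≤ 1 / N - 1 / (N + 1) := by
      rw [sub_nonneg]
      apply one_div_le_one_div_of_le <;> linarith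
    calc θ N * ((1 / N - 1 / (N + 1)) / (N + 1) * 1)
        ≤ (Real.log 4 * N) * ((1 / N - 1 / (N + 1)) / (N + 1) * 1) := by gcongr
      _ = Real.log 4 * (1 / N - 1 / (N + 1)) * (N / (N + 1)) := by ring
      _ ≤ Real.log 4 * (1 / N - 1 / (N + 1)) * 1 := by
        gcongr
        rw [div_le_one (by positivity)]; linarith
      _ = _ := by ring
  unfold W
  rw [Finset.sum_mul]
  have h5 : ∑ p ∈ Nat.primesLE N, Real.log p * (1 / p - (1 + (Real.log (N + 1) - Real.log p)) / (N + 1)) ≤
      ∑ p ∈ Nat.primesLE N, (Real.log p * (1 / p - (1 + (Real.log N - Real.log p)) / N) +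
        Real.log p * (Real.log N - Real.log p) * (1 / N - 1 / (N + 1)) +
        Real.log p * ((1 / N - 1 / (N + 1)) / (N + 1) * 1)) := by
    apply Finset.sum_le_sum
    intro p hp
    have hp' := Nat.mem_primesLE.mp hp
    have hp2 : (2 : ℝ) ≤ p := by exact_mod_cast hp'.2.two_le
    have h0 : 0 ≤ Real.log p := Real.log_nonneg (by linarith)
    have hlog : 1 / ((N : ℝ) + 1) ≤ Real.log (N + 1) - Real.log N := by
      rw [← Real.log_div (by positivity) (by positivity)]
      have := Real.one_sub_inv_le_log_of_pos (x := ((N : ℝ) + 1) / N) (by positivity)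
      calc 1 / ((N : ℝ) + 1) = 1 - (((N : ℝ) + 1) / N)⁻¹ := by field_simp; ring
        _ ≤ _ := this
    have key : (1 / (p : ℝ) - (1 + (Real.log (N + 1) - Real.log p)) / (N + 1)) ≤
       (1 / p - (1 + (Real.log N - Real.log p)) / N) + (Real.log N - Real.log p) * (1 / N - 1 / (N + 1)) + ((1 / N - 1 / (N + 1)) / (N + 1) * 1) := by
      have e1 : (1 / p - (1 + (Real.log N - Real.log p)) / N) + (Real.log N - Real.log p) * (1 / N - 1 / (N + 1)) + ((1 / N - 1 / (N + 1)) / (N + 1) * 1) - (1 / (p : ℝ) - (1 + (Real.log (N + 1) - Real.log p)) / (N + 1))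
        = ((Real.log (N + 1) - Real.log N) - 1 / N + (1 / N - 1 / (N + 1))) / (N + 1) := by
        field_simp; ring
      have e2 : 0 ≤ ((Real.log (N + 1) - Real.log N) - 1 / N + (1 / N - 1 / (N + 1))) / ((N : ℝ) + 1) := by
        apply div_nonneg _ (by positivity)
        linarith
      linarith
    calc _ ≤ Real.log p * ((1 / p - (1 + (Real.log N - Real.log p)) / N) + (Real.log N - Real.log p) * (1 / N - 1 / (N + 1)) + ((1 / N - 1 / (N + 1)) / (N + 1) * 1)) := by gcongr
      _ = _ := by ring
  rw [Finset.sum_add_distrib, Finset.sum_add_distrib] at h5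
  linarith

lemma F_le (N : ℕ) (hN : 1 ≤ N) :
    F N ≤ (∑ n ∈ Finset.Ico 1 N, W n * (1 / n - 1 / (n + 1))) + Real.log 4 * (1 - 1 / N) := by
  induction N, hN using Nat.le_induction with
  | base => simp [F]
  | succ N hN ih =>
    have := F_step N hN
    rw [Finset.sum_Ico_succ_top hN]
    push_cast
    linarith

/-- Mertens' first theorem, lower bound. -/
lemma mertens_lower (N : ℕ) (hN : 1 ≤ N) :
    Real.log N - 3 ≤ ∑ p ∈ Nat.primesLE N, Real.log p / p := by
  have h1 := sum_primes_log_div_pred N hN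
  have h2 := sum_primes_log_div_mul_pred N
  have h3 : ∑ p ∈ Nat.primesLE N, Real.log p / (p - 1) =
      (∑ p ∈ Nat.primesLE N, Real.log p / p) + ∑ p ∈ Nat.primesLE N, Real.log p / (p * (p - 1)) := by
    rw [← Finset.sum_add_distrib]
    apply Finset.sum_congr rfl
    intro p hp
    have hp' := Nat.mem_primesLE.mp hp
    have hp2 : (2 : ℝ) ≤ p := by exact_mod_cast hp'.2.two_le
    have : (p : ℝ) - 1 ≠ 0 := by linarith
    have : (p : ℝ) ≠ 0 := by linarith
    field_simp
    ring
  linarith

lemma sum_inv_succ_le (N : ℕ) (hN : 1 ≤ N) :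
    ∑ n ∈ Finset.Ico 1 N, (1 : ℝ) / (n + 1) ≤ Real.log N := by
  induction N, hN using Nat.le_induction with
  | base => simp
  | succ N hN ih =>
    rw [Finset.sum_Ico_succ_top hN]
    have hNr : (1 : ℝ) ≤ N := by exact_mod_cast hN
    have hlog : 1 / ((N : ℝ) + 1) ≤ Real.log (N + 1) - Real.log N := by
      rw [← Real.log_div (by positivity) (by positivity)]
      have := Real.one_sub_inv_le_log_of_pos (x := ((N : ℝ) + 1) / N) (by positivity)
      calc 1 / ((N : ℝ) + 1) = 1 - (((N : ℝ) + 1) / N)⁻¹ := by field_simp; ring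
        _ ≤ _ := this
    push_cast
    linarith

/-- Infinitely often the average `W(n)/n` is at least `1 - ε`. -/
theorem exists_W_ge (ε : ℝ) (hε : 0 < ε) (N₀ : ℕ) :
    ∃ n : ℕ, N₀ ≤ n ∧ (1 - ε) * n ≤ W n := by
  by_contra hcon
  push Not at hcon
  -- choose a starting point at least one
  set M := max N₀ 1 with hM
  have hM1 : 1 ≤ M := le_max_right _ _
  have hlt : ∀ n, M ≤ n → W n < (1 - ε) * n := fun n hn => hcon n ((le_max_left _ _).trans hn)
  have hε1 : 0 ≤ 1 - ε := by
    have h1 := hlt M le_rfl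
    have h2 := W_nonneg M
    have h3 : (1 : ℝ) ≤ M := by exact_mod_cast hM1
    by_contra hneg
    push Not at hneg
    nlinarith
  set C₀ := ∑ n ∈ Finset.Ico 1 M, W n * (1 / n - 1 / (n + 1)) with hC0
  have bound : ∀ N, M ≤ N → ε * Real.log N ≤ C₀ + 2 * Real.log 4 + 4 := by
    intro N hN
    have hN1 : 1 ≤ N := hM1.trans hN
    have hNr : (1 : ℝ) ≤ N := by exact_mod_cast hN1
    have f1 := F_le N hN1
    rw [F_eq] at f1
    have f2 := mertens_lower N hN1
    have f3 : (θ N + W N) / N ≤ Real.log 4 + 1 := by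
      rw [div_le_iff₀ (by positivity)]
      have h3 := Chebyshev.theta_le_log4_mul_x (x := (N : ℝ)) (by positivity)
      have h4 := (hlt N hN).le
      nlinarith
    have f4 : ∑ n ∈ Finset.Ico 1 N, W n * (1 / n - 1 / (n + 1)) ≤ C₀ + (1 - ε) * Real.log N := by
      rw [← Finset.sum_Ico_consecutive _ hM1 hN]
      have : ∑ n ∈ Finset.Ico M N, W n * (1 / n - 1 / (n + 1)) ≤ (1 - ε) * Real.log N := by
        calc _ ≤ ∑ n ∈ Finset.Ico M N, (1 - ε) * (1 / ((n : ℝ) + 1)) := by
              apply Finset.sum_le_sum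
              intro n hn
              simp only [Finset.mem_Ico] at hn
              have hn1 : (1 : ℝ) ≤ n := by exact_mod_cast hM1.trans hn.1
              have h5 := (hlt n hn.1).le
              have h6 : (0:ℝ) ≤ 1 / n - 1 / (n + 1) := by
                rw [sub_nonneg]
                apply one_div_le_one_div_of_le <;> linarith
              calc W n * (1 / n - 1 / (n + 1)) ≤ ((1 - ε) * n) * (1 / n - 1 / (n + 1)) := by gcongr
                _ = (1 - ε) * (1 / (n + 1)) := by field_simp; ring
          _ ≤ ∑ n ∈ Finset.Ico 1 N, (1 - ε) * (1 / ((n : ℝ) + 1)) := by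
              apply Finset.sum_le_sum_of_subset_of_nonneg
              · exact Finset.Ico_subset_Ico_left hM1
              · intro n _ _
                positivity
          _ = (1 - ε) * ∑ n ∈ Finset.Ico 1 N, (1 / ((n : ℝ) + 1)) := by rw [Finset.mul_sum]
          _ ≤ (1 - ε) * Real.log N := by
              gcongr
              exact sum_inv_succ_le N hN1
      linarith
    have f5 : Real.log 4 * (1 - 1 / N) ≤ Real.log 4 := by
      have : 0 ≤ Real.log 4 := Real.log_nonneg (by norm_num)
      have h7 : 1 - 1 / (N : ℝ) ≤ 1 := by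
        have : 0 ≤ 1 / (N : ℝ) := by positivity
        linarith
      nlinarith
    linarith
  -- contradiction by taking N large
  have h1 : Filter.Tendsto (fun N : ℕ => ε * Real.log N) Filter.atTop Filter.atTop :=
    (Real.tendsto_log_atTop.comp tendsto_natCast_atTop_atTop).const_mul_atTop hε
  have h2 := (h1.eventually (Filter.eventually_gt_atTop (C₀ + 2 * Real.log 4 + 4))).and
    (Filter.eventually_ge_atTop M)
  obtain ⟨N, hN1, hN2⟩ := h2.exists
  have := bound N hN2
  linarith

end Pool.Agent.helper92.Mertens
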